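import Pool.Agent.U890.LC.B

/-!
# Rational approximations to the elements of cosets: divergence, the counting argument
-/

set_option autoImplicit false

open Finset Filter Topology

namespace Pool.Agent.U890.LC

open Pool.Agent.N965.LN MeasureTheory

/-- a closed subset of the unit interval is covered by few intervals of a fine division -/
theorem cover (K : Set ℝ) (hK : IsClosed K) (hK01 : K ⊆ Set.Icc 0 1) (ε : ℝ) (hε : 0 < ε)
    (hμ : volume K < ENNReal.ofReal ε) : ∃ N : ℕ, 1 ≤ N ∧ ∃ J : Finset ℕ, (J.card : ℝ) ≤ ε * N ∧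
      ∀ y ∈ K, ∃ j ∈ J, |y - ((j : ℝ) + 1 / 2) / N| ≤ 1 / (2 * N) := by
  classical
  have hfin : ∃ R > 0, volume (Metric.cthickening R K) ≠ ⊤ := by
    refine ⟨1, one_pos, ?_⟩
    have h1 : Metric.cthickening 1 K ⊆ Metric.cthickening 1 (Set.Icc (0 : ℝ) 1) :=
      Metric.cthickening_subset_of_subset 1 hK01
    have h2 : Bornology.IsBounded (Metric.cthickening 1 (Set.Icc (0 : ℝ) 1)) :=
      (Metric.isBounded_Icc 0 1).cthickening
    exact ((measure_mono h1).trans_lt h2.measure_lt_top).ne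
  have h1 := tendsto_measure_cthickening_of_isClosed (μ := volume) hfin hK
  have h2 := h1.eventually (gt_mem_nhds hμ)
  rw [Metric.eventually_nhds_iff] at h2
  obtain ⟨δ, hδ, h3⟩ := h2
  obtain ⟨N, hN⟩ := exists_nat_gt (1 / δ)
  have hN0 : (0 : ℝ) < N := (by positivity : (0 : ℝ) < 1 / δ).trans hN
  have hN1 : 1 ≤ N := by exact_mod_cast hN0
  have hNδ : 1 / (N : ℝ) < δ := by
    rw [div_lt_iff₀ hδ] at hN
    rw [div_lt_iff₀ hN0]
    linarith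
  have h4 : volume (Metric.cthickening (1 / (N : ℝ)) K) < ENNReal.ofReal ε := by
    apply h3
    rw [Real.dist_eq, sub_zero, abs_of_pos (by positivity)]
    exact hNδ
  refine ⟨N, hN1, (range (N + 1)).filter fun j => ∃ y ∈ K, ⌊(N : ℝ) * y⌋₊ = j, ?_, ?_⟩
  · set J := (range (N + 1)).filter fun j => ∃ y ∈ K, ⌊(N : ℝ) * y⌋₊ = j with hJ
    have hdis : Set.PairwiseDisjoint (J : Set ℕ)
        fun j : ℕ => Set.Ico ((j : ℝ) / N) (((j : ℝ) + 1) / N) := by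
      intro i _ j _ hij
      rw [Function.onFun, Set.disjoint_left]
      rintro x ⟨hx1, hx2⟩ ⟨hx3, hx4⟩
      rw [div_le_iff₀ hN0] at hx1 hx3
      rw [lt_div_iff₀ hN0] at hx2 hx4
      apply hij
      have h5 : (i : ℝ) < j + 1 := by linarith
      have h6 : (j : ℝ) < i + 1 := by linarith
      have h7 : i < j + 1 := by exact_mod_cast h5
      have h8 : j < i + 1 := by exact_mod_cast h6
      omega
    have h5 : volume (⋃ j ∈ J, Set.Ico ((j : ℝ) / N) (((j : ℝ) + 1) / N)) =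
        ∑ j ∈ J, volume (Set.Ico ((j : ℝ) / N) (((j : ℝ) + 1) / N)) :=
      measure_biUnion_finset hdis fun _ _ => measurableSet_Ico
    have h6 : ∀ j : ℕ, volume (Set.Ico ((j : ℝ) / N) (((j : ℝ) + 1) / N)) =
        ENNReal.ofReal (1 / N) := by
      intro j
      rw [Real.volume_Ico]
      congr 1
      ring
    have h7 : (⋃ j ∈ J, Set.Ico ((j : ℝ) / N) (((j : ℝ) + 1) / N)) ⊆
        Metric.cthickening (1 / (N : ℝ)) K := by
      intro x hx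
      simp only [Set.mem_iUnion] at hx
      obtain ⟨j, hj, hx1, hx2⟩ := hx
      rw [hJ, mem_filter] at hj
      obtain ⟨-, y, hy, hyj⟩ := hj
      have hy0 := (hK01 hy).1
      have h8 : (j : ℝ) ≤ N * y := by
        rw [← hyj]
        exact Nat.floor_le (by positivity)
      have h9 : (N : ℝ) * y < j + 1 := by
        rw [← hyj]
        exact Nat.lt_floor_add_one _
      apply Metric.mem_cthickening_of_dist_le x y _ _ hy
      rw [Real.dist_eq, abs_le]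
      rw [div_le_iff₀ hN0] at hx1
      rw [lt_div_iff₀ hN0] at hx2
      have h10 : (x - y) * N ≤ 1 := by nlinarith
      have h11 : -1 ≤ (x - y) * N := by nlinarith
      constructor
      · rw [neg_le_iff_add_nonneg, ← sub_nonneg]
        have : x - y + 1 / N - 0 = ((x - y) * N + 1) / N := by field_simp; ring
        rw [this]
        apply div_nonneg (by linarith) hN0.le
      · rw [le_div_iff₀ hN0]
        exact h10
    have h8 : ENNReal.ofReal ((J.card : ℝ) * (1 / N)) < ENNReal.ofReal ε := by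
      refine lt_of_le_of_lt ?_ h4
      refine le_trans ?_ (measure_mono h7)
      rw [h5]
      simp only [h6]
      rw [Finset.sum_const, nsmul_eq_mul, ENNReal.ofReal_mul (by positivity),
        ENNReal.ofReal_natCast]
    have h9 := (ENNReal.ofReal_lt_ofReal_iff hε).1 h8
    rw [mul_one_div, div_lt_iff₀ hN0] at h9
    exact h9.le
  · intro y hy
    have hy01 := hK01 hy
    have h5 : (⌊(N : ℝ) * y⌋₊ : ℝ) ≤ N * y := Nat.floor_le (mul_nonneg hN0.le hy01.1)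
    have h6 : (N : ℝ) * y < ⌊(N : ℝ) * y⌋₊ + 1 := Nat.lt_floor_add_one _
    refine ⟨⌊(N : ℝ) * y⌋₊, ?_, ?_⟩
    · rw [mem_filter, mem_range]
      refine ⟨?_, y, hy, rfl⟩
      have h7 : (⌊(N : ℝ) * y⌋₊ : ℝ) ≤ N := h5.trans (by nlinarith [hy01.2])
      have h8 : ⌊(N : ℝ) * y⌋₊ ≤ N := by exact_mod_cast h7
      omega
    · have h7 : y - ((⌊(N : ℝ) * y⌋₊ : ℝ) + 1 / 2) / N =
          ((N : ℝ) * y - ⌊(N : ℝ) * y⌋₊ - 1 / 2) / N := by
        field_simp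
        ring
      have h8 : (1 : ℝ) / (2 * N) = (1 / 2) / N := by
        field_simp
      rw [h7, h8, abs_div, abs_of_pos hN0]
      refine div_le_div_of_nonneg_right ?_ hN0.le
      rw [abs_le]
      constructor <;> linarith

theorem dn_add_int (x : ℝ) (n : ℤ) : dn (x + n) = dn x := by
  unfold dn
  rw [round_add_intCast]
  push_cast
  congr 1
  ring

theorem div {m : ℕ} (hm : 1 ≤ m) (ξ : Fin m → ℝ) (hK : Ksum ξ) (ψ : ℕ → ℝ) (h0 : ∀ q, 0 ≤ ψ q)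
    (ha : Antitone ψ) (hd : ¬ Summable ψ) (Q₀ : ℕ) (η : ℝ) (hη : 0 < η) :
    ∃ Q H₀ : ℕ, Q₀ ≤ Q ∧ ∀ H : ℕ, H₀ ≤ H → ∀ (β : ℝ) (s : Fin m → ℤ),
      ({a | a ∈ cube s H ∧ ∀ q : ℕ, Q₀ ≤ q → q ≤ Q →
        ψ q ≤ dn ((q : ℝ) * (β + ∑ i, (a i : ℝ) * ξ i))}.ncard : ℝ) ≤ η * (H : ℝ) ^ m := by
  classical
  set ε : ℝ := η / (20 * 4 ^ m) with hε
  have hε0 : 0 < ε := by positivity
  obtain ⟨Q, hQ, hvol⟩ := ks_small ψ h0 ha hd Q₀ (ENNReal.ofReal ε) (ENNReal.ofReal_pos.2 hε0)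
  obtain ⟨N, hN, J, hJ, hcov⟩ := cover (KS ψ Q₀ Q) (ks_closed ψ Q₀ Q) (fun y hy => hy.1) ε hε0 hvol
  have hN0 : (0 : ℝ) < N := by exact_mod_cast hN
  obtain ⟨C, hC, harc⟩ := arc ξ hK (1 / (N : ℝ)) (by positivity)
  obtain ⟨H₀, hH₀⟩ := exists_nat_ge ((2 * (ε * N * C) / η) ^ 2)
  refine ⟨Q, max H₀ 1, hQ, fun H hH β s => ?_⟩
  have hH1 : 1 ≤ H := (le_max_right _ _).trans hH
  have hH' : (1 : ℝ) ≤ H := by exact_mod_cast hH1
  have hsub : {a | a ∈ cube s H ∧ ∀ q : ℕ, Q₀ ≤ q → q ≤ Q →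
        ψ q ≤ dn ((q : ℝ) * (β + ∑ i, (a i : ℝ) * ξ i))} ⊆
      ((J.biUnion fun j => (cube s H).filter fun a =>
        dn ((β - ((j : ℝ) + 1 / 2) / N) + ∑ i, (a i : ℝ) * ξ i) ≤ 1 / (N : ℝ) / 2 :
          Finset (Fin m → ℤ)) : Set (Fin m → ℤ)) := by
    rintro a ⟨h1, h2⟩
    set x := β + ∑ i, (a i : ℝ) * ξ i with hx
    have hfr : Int.fract x ∈ KS ψ Q₀ Q := by
      refine ⟨⟨Int.fract_nonneg x, (Int.fract_lt_one x).le⟩, fun q hq1 hq2 => ?_⟩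
      refine (h2 q hq1 hq2).trans (le_of_eq ?_)
      have h3 : (q : ℝ) * x = (q : ℝ) * Int.fract x + (((q : ℤ) * ⌊x⌋ : ℤ) : ℝ) := by
        have := Int.floor_add_fract x
        push_cast
        nlinarith
      rw [h3, dn_add_int]
    obtain ⟨j, hj, hjy⟩ := hcov _ hfr
    rw [mem_coe, mem_biUnion]
    refine ⟨j, hj, ?_⟩
    rw [mem_filter]
    refine ⟨h1, ?_⟩
    have h4 : (β - ((j : ℝ) + 1 / 2) / N) + ∑ i, (a i : ℝ) * ξ i =
        (Int.fract x - ((j : ℝ) + 1 / 2) / N) + (⌊x⌋ : ℝ) := by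
      have := Int.floor_add_fract x
      rw [hx] at this ⊢
      linarith
    rw [h4, dn_add_int]
    have h5 : dn (Int.fract x - ((j : ℝ) + 1 / 2) / N) ≤
        |Int.fract x - ((j : ℝ) + 1 / 2) / N - ((0 : ℤ) : ℝ)| := round_le _ _
    refine h5.trans ?_
    rw [Int.cast_zero, sub_zero]
    refine hjy.trans (le_of_eq ?_)
    field_simp
  have h1 := Set.ncard_le_ncard hsub (Finset.finite_toSet _)
  rw [Set.ncard_coe_finset] at h1
  have h2 := h1.trans Finset.card_biUnion_le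
  have h3 : ({a | a ∈ cube s H ∧ ∀ q : ℕ, Q₀ ≤ q → q ≤ Q →
        ψ q ≤ dn ((q : ℝ) * (β + ∑ i, (a i : ℝ) * ξ i))}.ncard : ℝ) ≤
      ∑ j ∈ J, (10 * (1 / (N : ℝ)) * (4 * (H : ℝ)) ^ m + C * (H : ℝ) ^ (1 / 2 : ℝ)) := by
    have h4 : ({a | a ∈ cube s H ∧ ∀ q : ℕ, Q₀ ≤ q → q ≤ Q →
        ψ q ≤ dn ((q : ℝ) * (β + ∑ i, (a i : ℝ) * ξ i))}.ncard : ℝ) ≤
        ∑ j ∈ J, (((cube s H).filter fun a =>
        dn ((β - ((j : ℝ) + 1 / 2) / N) + ∑ i, (a i : ℝ) * ξ i) ≤ 1 / (N : ℝ) / 2).card : ℝ) := by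
      exact_mod_cast h2
    exact h4.trans (Finset.sum_le_sum fun j _ => harc H hH1 _ s)
  rw [Finset.sum_const, nsmul_eq_mul] at h3
  refine h3.trans ?_
  have h4 : (0 : ℝ) ≤ 10 * (1 / (N : ℝ)) * (4 * (H : ℝ)) ^ m + C * (H : ℝ) ^ (1 / 2 : ℝ) := by
    positivity
  refine (mul_le_mul_of_nonneg_right hJ h4).trans ?_
  have h5 : ε * N * (10 * (1 / (N : ℝ)) * (4 * (H : ℝ)) ^ m) = η / 2 * (H : ℝ) ^ m := by
    rw [hε, mul_pow]
    field_simp
    ring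
  have h6 : ε * N * (C * (H : ℝ) ^ (1 / 2 : ℝ)) ≤ η / 2 * (H : ℝ) ^ m := by
    have h7 : (2 * (ε * N * C) / η) ≤ (H : ℝ) ^ (1 / 2 : ℝ) := by
      rw [← Real.sqrt_eq_rpow]
      apply Real.le_sqrt_of_sq_le
      exact hH₀.trans (by exact_mod_cast (le_max_left _ _).trans hH)
    have h8 : (H : ℝ) ^ (1 / 2 : ℝ) * (H : ℝ) ^ (1 / 2 : ℝ) ≤ (H : ℝ) ^ m := by
      rw [← Real.sqrt_eq_rpow, Real.mul_self_sqrt (by linarith)]
      calc (H : ℝ) = (H : ℝ) ^ 1 := (pow_one _).symm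
        _ ≤ (H : ℝ) ^ m := pow_le_pow_right₀ hH' hm
    rw [div_le_iff₀ hη] at h7
    have h9 : (0 : ℝ) ≤ (H : ℝ) ^ (1 / 2 : ℝ) := by positivity
    calc ε * N * (C * (H : ℝ) ^ (1 / 2 : ℝ)) = (2 * (ε * N * C)) * (H : ℝ) ^ (1 / 2 : ℝ) / 2 := by
          ring
      _ ≤ ((H : ℝ) ^ (1 / 2 : ℝ) * η) * (H : ℝ) ^ (1 / 2 : ℝ) / 2 :=
          div_le_div_of_nonneg_right (mul_le_mul_of_nonneg_right h7 h9) (by norm_num)
      _ = η / 2 * ((H : ℝ) ^ (1 / 2 : ℝ) * (H : ℝ) ^ (1 / 2 : ℝ)) := by ring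
      _ ≤ η / 2 * (H : ℝ) ^ m := mul_le_mul_of_nonneg_left h8 (by positivity)
  calc ε * N * (10 * (1 / (N : ℝ)) * (4 * (H : ℝ)) ^ m + C * (H : ℝ) ^ (1 / 2 : ℝ)) =
        ε * N * (10 * (1 / (N : ℝ)) * (4 * (H : ℝ)) ^ m) +
          ε * N * (C * (H : ℝ) ^ (1 / 2 : ℝ)) := by ring
    _ ≤ η / 2 * (H : ℝ) ^ m + η / 2 * (H : ℝ) ^ m := by
        rw [h5]
        exact add_le_add le_rfl h6
    _ = η * (H : ℝ) ^ m := by ring

end Pool.Agent.U890.LC
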