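import Pool.Agent.N965.LN.Asm1
import Pool.Agent.N965.LN.Psi
import Pool.Agent.N965.LN.Ps
import Pool.Agent.N965.LN.Fej

/-!
# Rational approximations to the elements of cosets: the number of the elements of a cube of a coset
which are close to a fraction
-/

set_option autoImplicit false

open Finset Filter Topology

namespace Pool.Agent.U890.LC

open Pool.Agent.N965.LN

/-- the integral vectors with `s i ≤ a i < s i + H` -/
noncomputable def cube {m : ℕ} (s : Fin m → ℤ) (H : ℕ) : Finset (Fin m → ℤ) :=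
  Fintype.piFinset fun i => Ico (s i) (s i + H)

theorem mem_cube {m : ℕ} {s : Fin m → ℤ} {H : ℕ} {a : Fin m → ℤ} :
    a ∈ cube s H ↔ ∀ i, s i ≤ a i ∧ a i < s i + H := by
  unfold cube
  rw [Fintype.mem_piFinset]
  simp only [mem_Ico]

theorem dn_sub (x y : ℝ) : dn (x - y) ≤ dn x + dn y := by
  unfold dn
  have h := round_le (x - y) (round x - round y)
  push_cast at h
  calc |x - y - round (x - y)| ≤ |x - y - (round x - round y)| := h
    _ = |(x - round x) - (y - round y)| := by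
        congr 1
        ring
    _ ≤ |x - round x| + |y - round y| := abs_sub _ _

theorem card_cube {m : ℕ} (s : Fin m → ℤ) (H : ℕ) : (cube s H).card = H ^ m := by
  unfold cube
  rw [Fintype.card_piFinset]
  simp

theorem card_inhom {m H : ℕ} (β : Fin m → ℝ) (γ ρ : ℝ) (s : Fin m → ℤ) :
    ((cube s H).filter fun a => dn (γ + ∑ i, (a i : ℝ) * β i) ≤ ρ / 2).card ≤
      ((box m H).filter fun a => dn (∑ i, (a i : ℝ) * β i) ≤ ρ).card := by
  classical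
  rcases Finset.eq_empty_or_nonempty
    ((cube s H).filter fun a => dn (γ + ∑ i, (a i : ℝ) * β i) ≤ ρ / 2) with h | ⟨a0, ha0⟩
  · rw [h]
    simp
  · rw [mem_filter, mem_cube] at ha0
    refine Finset.card_le_card_of_injOn (fun a => a - a0) ?_ ?_
    · intro a ha
      rw [mem_coe, mem_filter, mem_cube] at ha
      rw [mem_coe, mem_filter]
      refine ⟨?_, ?_⟩
      · unfold Pool.Agent.N965.LN.box
        rw [Fintype.mem_piFinset]
        intro i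
        have h1 := ha.1 i
        have h2 := ha0.1 i
        rw [mem_Icc]
        simp only [Pi.sub_apply]
        constructor <;> omega
      · have h1 : ∑ i, (((a - a0) i : ℤ) : ℝ) * β i =
            (γ + ∑ i, (a i : ℝ) * β i) - (γ + ∑ i, (a0 i : ℝ) * β i) := by
          have : ∑ i, (((a - a0) i : ℤ) : ℝ) * β i =
              ∑ i, (a i : ℝ) * β i - ∑ i, (a0 i : ℝ) * β i := by
            rw [← Finset.sum_sub_distrib]
            refine Finset.sum_congr rfl fun i _ => ?_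
            rw [Pi.sub_apply]
            push_cast
            ring
          rw [this]
          ring
        rw [h1]
        refine (dn_sub _ _).trans ?_
        linarith [ha.2, ha0.2]
    · intro a _ b _ h
      simpa using h

theorem card_near {m H : ℕ} (hH : 1 ≤ H) (β : Fin m → ℝ) (γ ρ : ℝ) (hρ : 0 < ρ) (s : Fin m → ℤ) :
    (((cube s H).filter fun a => dn (γ + ∑ i, (a i : ℝ) * β i) ≤ ρ / 2).card : ℝ) ≤
      10 * ρ * (4 * (H : ℝ)) ^ m +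
        20 * ρ * ∑ v ∈ Icc 1 ⌊1 / (2 * ρ)⌋₊, ∏ i, KK H ((v : ℝ) * β i) := by
  classical
  have h0 : 0 ≤ ∑ v ∈ Icc 1 ⌊1 / (2 * ρ)⌋₊, ∏ i, KK H ((v : ℝ) * β i) :=
    Finset.sum_nonneg fun _ _ => Finset.prod_nonneg fun _ _ => KK_nonneg _ _
  rcases le_or_gt ρ (1 / 2) with h | h
  · have h1 := t_FEJ m H β ρ hH hρ h
    have h2 : (((cube s H).filter fun a => dn (γ + ∑ i, (a i : ℝ) * β i) ≤ ρ / 2).card : ℝ) ≤
        (((box m H).filter fun a => dn (∑ i, (a i : ℝ) * β i) ≤ ρ).card : ℝ) := by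
      exact_mod_cast card_inhom β γ ρ s
    exact h2.trans h1
  · have hH' : (1 : ℝ) ≤ H := by exact_mod_cast hH
    have h1 : (((cube s H).filter fun a => dn (γ + ∑ i, (a i : ℝ) * β i) ≤ ρ / 2).card : ℝ) ≤
        (H : ℝ) ^ m := by
      have := Finset.card_filter_le (cube s H)
        (fun a => dn (γ + ∑ i, (a i : ℝ) * β i) ≤ ρ / 2)
      rw [card_cube] at this
      exact_mod_cast this
    have h2 : (H : ℝ) ^ m ≤ (4 * (H : ℝ)) ^ m := pow_le_pow_left₀ (by positivity) (by linarith) m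
    have h3 : (0 : ℝ) ≤ (4 * (H : ℝ)) ^ m := by positivity
    have h4 : (4 * (H : ℝ)) ^ m ≤ 10 * ρ * (4 * (H : ℝ)) ^ m := by nlinarith
    have h5 : 0 ≤ 20 * ρ * ∑ v ∈ Icc 1 ⌊1 / (2 * ρ)⌋₊, ∏ i, KK H ((v : ℝ) * β i) := by positivity
    linarith

/-- the elements of the cube for which `β + ∑ a i ξ i` is close to a fraction of denominator at most
`Y` -/
def Bad {m : ℕ} (ξ : Fin m → ℝ) (ψ : ℕ → ℝ) (H : ℕ) (Y c β : ℝ) (s : Fin m → ℤ) :
    Set (Fin m → ℤ) :=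
  {a | a ∈ cube s H ∧ ∃ (p : ℤ) (q : ℕ), 1 ≤ q ∧ (q : ℝ) ≤ Y ∧
    |β + ∑ i, (a i : ℝ) * ξ i - (p : ℝ) / q| ≤ c * ψ q / q}

theorem bad_finite {m : ℕ} (ξ : Fin m → ℝ) (ψ : ℕ → ℝ) (H : ℕ) (Y c β : ℝ) (s : Fin m → ℤ) :
    (Bad ξ ψ H Y c β s).Finite := (cube s H).finite_toSet.subset fun _ ha => ha.1

theorem bad_card {m : ℕ} (ξ : Fin m → ℝ) (ψ : ℕ → ℝ) (H X : ℕ) (Y c β : ℝ) (s : Fin m → ℤ)
    (hX : ⌊Y⌋₊ ≤ X) :
    ((Bad ξ ψ H Y c β s).ncard : ℝ) ≤ ∑ q ∈ Icc 1 X,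
      (((cube s H).filter fun a => dn ((q : ℝ) * β + ∑ i, (a i : ℝ) * ((q : ℝ) * ξ i)) ≤
        2 * (c * ψ q) / 2).card : ℝ) := by
  classical
  have hsub : Bad ξ ψ H Y c β s ⊆ (((Icc 1 X).biUnion fun q =>
      (cube s H).filter fun a => dn ((q : ℝ) * β + ∑ i, (a i : ℝ) * ((q : ℝ) * ξ i)) ≤
        2 * (c * ψ q) / 2 : Finset (Fin m → ℤ)) : Set (Fin m → ℤ)) := by
    rintro a ⟨h1, p, q, h2, h3, h4⟩
    rw [mem_coe, mem_biUnion]
    refine ⟨q, mem_Icc.2 ⟨h2, (Nat.le_floor h3).trans hX⟩, ?_⟩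
    rw [mem_filter]
    refine ⟨h1, ?_⟩
    have hq : (0 : ℝ) < q := by exact_mod_cast h2
    have h5 : (q : ℝ) * β + ∑ i, (a i : ℝ) * ((q : ℝ) * ξ i) =
        q * (β + ∑ i, (a i : ℝ) * ξ i) := by
      rw [mul_add, Finset.mul_sum]
      congr 1
      exact Finset.sum_congr rfl fun i _ => by ring
    rw [h5]
    refine (round_le _ p).trans ?_
    have h6 : (q : ℝ) * (β + ∑ i, (a i : ℝ) * ξ i) - p =
        q * (β + ∑ i, (a i : ℝ) * ξ i - (p : ℝ) / q) := by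
      field_simp
    rw [h6, abs_mul, abs_of_pos hq]
    refine (mul_le_mul_of_nonneg_left h4 hq.le).trans (le_of_eq ?_)
    field_simp
  have h2 := Set.ncard_le_ncard hsub (Finset.finite_toSet _)
  rw [Set.ncard_coe_finset] at h2
  have h3 := h2.trans Finset.card_biUnion_le
  exact_mod_cast h3

theorem conv {m : ℕ} (ξ : Fin m → ℝ) (hFT : FT ξ) (κ σ : ℝ) (hκ0 : 0 ≤ κ) (hκσ : κ + σ < m)
    (ψ₀ : ℕ → ℝ) (hψ₀0 : ∀ n, 0 ≤ ψ₀ n) (hψ₀ : Antitone ψ₀) (hs₀ : Summable ψ₀) :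
    ∃ C : ℝ, 0 < C ∧ ∀ c : ℝ, 0 < c → c ≤ 1 → ∀ H : ℕ, 1 ≤ H → ∀ (β : ℝ) (s : Fin m → ℤ),
      ((Bad ξ ψ₀ H ((H : ℝ) ^ κ) c β s).ncard : ℝ) ≤
        C * (c * (H : ℝ) ^ m + c⁻¹ * (H : ℝ) ^ ((m : ℝ) - σ)) := by
  set τ := min 1 (((m : ℝ) - σ - κ) / (1 + 4 * κ)) with hτ
  have hτ0 : 0 < τ := lt_min one_pos (div_pos (by linarith) (by positivity))
  have hτ1 : τ ≤ 1 := min_le_left _ _
  have hτ2 : τ * (1 + 4 * κ) ≤ (m : ℝ) - σ - κ := by
    have h1 : τ ≤ ((m : ℝ) - σ - κ) / (1 + 4 * κ) := min_le_right _ _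
    have h2 : 0 < 1 + 4 * κ := by positivity
    calc τ * (1 + 4 * κ) ≤ ((m : ℝ) - σ - κ) / (1 + 4 * κ) * (1 + 4 * κ) :=
          mul_le_mul_of_nonneg_right h1 h2.le
      _ = (m : ℝ) - σ - κ := by field_simp
  set φ : ℕ → ℝ := fun n => ((n : ℝ) + 1) ^ (-(1 + τ)) with hφ
  have hφ0 : ∀ n, 0 < φ n := fun n => by
    simp only [hφ]
    positivity
  have hφa : Antitone φ := by
    intro a b hab
    simp only [hφ]
    apply Real.rpow_le_rpow_of_nonpos (by positivity) _ (by linarith)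
    have : (a : ℝ) ≤ b := by exact_mod_cast hab
    linarith
  have hφs : Summable φ := by
    have h1 : Summable (fun n : ℕ => ((n : ℝ)) ^ (-(1 + τ))) :=
      Real.summable_nat_rpow.2 (by linarith)
    have h2 := (summable_nat_add_iff 1).2 h1
    refine h2.congr fun n => ?_
    simp only [hφ]
    push_cast
    rfl
  set ψ : ℕ → ℝ := fun n => ψ₀ n + φ n with hψdef
  have hψ0 : ∀ n, 0 < ψ n := fun n => by
    have h1 := hφ0 n
    have h2 := hψ₀0 n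
    simp only [hψdef]
    linarith
  have hψa : Antitone ψ := fun a b hab => add_le_add (hψ₀ hab) (hφa hab)
  have hψs : Summable ψ := hs₀.add hφs
  set Ψ := ∑' n, ψ n with hΨ
  have hΨ0 : 0 < Ψ := hψs.tsum_pos (fun n => (hψ0 n).le) 0 (hψ0 0)
  have hD : ∀ n : ℕ, 1 ≤ n → (n : ℝ) ^ (-(1 + τ)) ≤ (2 : ℝ) ^ (1 + τ) * ψ n := by
    intro n hn
    have hn' : (1 : ℝ) ≤ n := by exact_mod_cast hn
    have h1 : (2 * (n : ℝ)) ^ (-(1 + τ)) ≤ φ n := by
      simp only [hφ]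
      exact Real.rpow_le_rpow_of_nonpos (by positivity) (by linarith) (by linarith)
    have h2 : (2 * (n : ℝ)) ^ (-(1 + τ)) = (2 : ℝ) ^ (-(1 + τ)) * (n : ℝ) ^ (-(1 + τ)) :=
      Real.mul_rpow (by norm_num) (by positivity)
    have h3 : (2 : ℝ) ^ (1 + τ) * (2 : ℝ) ^ (-(1 + τ)) = 1 := by
      rw [← Real.rpow_add (by norm_num)]
      simp
    have h4 : (0 : ℝ) < (2 : ℝ) ^ (1 + τ) := by positivity
    calc (n : ℝ) ^ (-(1 + τ)) = (2 : ℝ) ^ (1 + τ) * (2 * (n : ℝ)) ^ (-(1 + τ)) := by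
          rw [h2, ← mul_assoc, h3, one_mul]
      _ ≤ (2 : ℝ) ^ (1 + τ) * φ n := mul_le_mul_of_nonneg_left h1 h4.le
      _ ≤ (2 : ℝ) ^ (1 + τ) * ψ n := by
          refine mul_le_mul_of_nonneg_left ?_ h4.le
          have := hψ₀0 n
          simp only [hψdef]
          linarith
  set D : ℝ := (2 : ℝ) ^ (1 + τ) with hDdef
  have hD0 : 0 < D := by positivity
  obtain ⟨C1, hC1, hft⟩ := hFT τ hτ0
  have hnψ : ∀ n : ℕ, (n : ℝ) * ψ n ≤ Ψ := (t_PSI ψ (fun n => (hψ0 n).le) hψa hψs).1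
  -- the constant
  set C : ℝ := 20 * 4 ^ m * Ψ + 80 * Ψ * C1 * (D / 4) ^ (1 + τ) with hC
  have hC0 : 0 < C := by positivity
  refine ⟨C, hC0, fun c hc hc1 H hH β s => ?_⟩
  have hH' : (1 : ℝ) ≤ H := by exact_mod_cast hH
  have hHp : (0 : ℝ) < H := by linarith
  set X := ⌊(H : ℝ) ^ κ⌋₊ with hX
  have hX1 : 1 ≤ X := by
    apply Nat.le_floor
    rw [Nat.cast_one]
    exact Real.one_le_rpow hH' hκ0
  have hX1' : (1 : ℝ) ≤ X := by exact_mod_cast hX1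
  have hXle : (X : ℝ) ≤ (H : ℝ) ^ κ := Nat.floor_le (by positivity)
  have hsub : Bad ξ ψ₀ H ((H : ℝ) ^ κ) c β s ⊆ Bad ξ ψ H ((H : ℝ) ^ κ) c β s := by
    rintro a ⟨h1, p, q, h2, h3, h4⟩
    refine ⟨h1, p, q, h2, h3, h4.trans ?_⟩
    refine div_le_div_of_nonneg_right ?_ (Nat.cast_nonneg q)
    refine mul_le_mul_of_nonneg_left ?_ hc.le
    have := hφ0 q
    simp only [hψdef]
    linarith
  have h1 : ((Bad ξ ψ₀ H ((H : ℝ) ^ κ) c β s).ncard : ℝ) ≤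
      ((Bad ξ ψ H ((H : ℝ) ^ κ) c β s).ncard : ℝ) := by
    exact_mod_cast Set.ncard_le_ncard hsub (bad_finite _ _ _ _ _ _ _)
  have h2 := bad_card ξ ψ H X ((H : ℝ) ^ κ) c β s le_rfl
  -- the kernel sums
  set Y : ℝ := D * (X : ℝ) ^ τ / (4 * c) with hY
  have hY0 : 0 < Y := by positivity
  set f : ℕ → ℝ := fun t => ∑ v ∈ Icc 1 ⌊(t : ℝ) * Y⌋₊, ∏ i, KK H (((v * t : ℕ) : ℝ) * ξ i)
    with hf
  have hf0 : ∀ t, 0 ≤ f t := fun t =>
    Finset.sum_nonneg fun _ _ => Finset.prod_nonneg fun _ _ => KK_nonneg _ _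
  have h3 : ∀ q ∈ Icc 1 X, (((cube s H).filter fun a =>
      dn ((q : ℝ) * β + ∑ i, (a i : ℝ) * ((q : ℝ) * ξ i)) ≤ 2 * (c * ψ q) / 2).card : ℝ) ≤
      20 * c * (4 * (H : ℝ)) ^ m * ψ q + 40 * c * Ψ * (f q / q) := by
    intro q hq
    rw [mem_Icc] at hq
    have hq1 : (1 : ℝ) ≤ q := by exact_mod_cast hq.1
    have hq0 : (0 : ℝ) < q := by linarith
    have hρ : 0 < 2 * (c * ψ q) := by
      have := hψ0 q
      positivity
    have h4 := card_near hH (fun i => (q : ℝ) * ξ i) ((q : ℝ) * β) (2 * (c * ψ q)) hρ s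
    refine h4.trans ?_
    have h5 : ∑ v ∈ Icc 1 ⌊1 / (2 * (2 * (c * ψ q)))⌋₊, ∏ i, KK H ((v : ℝ) * ((q : ℝ) * ξ i)) ≤
        f q := by
      have h6 : ⌊1 / (2 * (2 * (c * ψ q)))⌋₊ ≤ ⌊(q : ℝ) * Y⌋₊ := by
        apply Nat.floor_le_floor
        have h7 := hD q hq.1
        have h8 : 1 / ψ q ≤ D * ((q : ℝ) * (X : ℝ) ^ τ) := by
          rw [div_le_iff₀ (hψ0 q)]
          have h9 : (q : ℝ) ^ (1 + τ) ≤ (q : ℝ) * (X : ℝ) ^ τ := by
            rw [Real.rpow_add hq0, Real.rpow_one]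
            refine mul_le_mul_of_nonneg_left ?_ hq0.le
            exact Real.rpow_le_rpow hq0.le (by exact_mod_cast hq.2) hτ0.le
          have h10 : (1 : ℝ) = (q : ℝ) ^ (1 + τ) * (q : ℝ) ^ (-(1 + τ)) := by
            rw [← Real.rpow_add hq0]
            simp
          have h11 : (0 : ℝ) ≤ (q : ℝ) ^ (1 + τ) := by positivity
          calc (1 : ℝ) = (q : ℝ) ^ (1 + τ) * (q : ℝ) ^ (-(1 + τ)) := h10
            _ ≤ (q : ℝ) ^ (1 + τ) * (D * ψ q) := mul_le_mul_of_nonneg_left h7 h11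
            _ ≤ ((q : ℝ) * (X : ℝ) ^ τ) * (D * ψ q) :=
                mul_le_mul_of_nonneg_right h9 (mul_pos hD0 (hψ0 q)).le
            _ = D * ((q : ℝ) * (X : ℝ) ^ τ) * ψ q := by ring
        have hψq := hψ0 q
        calc 1 / (2 * (2 * (c * ψ q))) = 1 / ψ q / (4 * c) := by
              field_simp
              ring
          _ ≤ D * ((q : ℝ) * (X : ℝ) ^ τ) / (4 * c) :=
              div_le_div_of_nonneg_right h8 (by positivity)
          _ = (q : ℝ) * Y := by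
              rw [hY]
              ring
      have h7 : ∀ v : ℕ, ∏ i, KK H ((v : ℝ) * ((q : ℝ) * ξ i)) =
          ∏ i, KK H (((v * q : ℕ) : ℝ) * ξ i) := by
        intro v
        refine Finset.prod_congr rfl fun i _ => ?_
        congr 1
        push_cast
        ring
      simp only [h7, hf]
      refine Finset.sum_le_sum_of_subset_of_nonneg (Icc_subset_Icc_right h6) ?_
      intro v _ _
      exact Finset.prod_nonneg fun _ _ => KK_nonneg _ _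
    have h6 : ψ q ≤ Ψ / q := by
      rw [le_div_iff₀ hq0, mul_comm]
      exact hnψ q
    have h7 : 20 * (2 * (c * ψ q)) * ∑ v ∈ Icc 1 ⌊1 / (2 * (2 * (c * ψ q)))⌋₊,
        ∏ i, KK H ((v : ℝ) * ((q : ℝ) * ξ i)) ≤ 40 * c * Ψ * (f q / q) := by
      calc _ ≤ 20 * (2 * (c * ψ q)) * f q :=
            mul_le_mul_of_nonneg_left h5 (by positivity)
        _ = 40 * c * f q * ψ q := by ring
        _ ≤ 40 * c * f q * (Ψ / q) := by
            refine mul_le_mul_of_nonneg_left h6 ?_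
            have := hf0 q
            positivity
        _ = 40 * c * Ψ * (f q / q) := by ring
    have h8 : 10 * (2 * (c * ψ q)) * (4 * (H : ℝ)) ^ m = 20 * c * (4 * (H : ℝ)) ^ m * ψ q := by
      ring
    rw [h8]
    linarith
  have h4 := Finset.sum_le_sum h3
  rw [Finset.sum_add_distrib, ← Finset.mul_sum, ← Finset.mul_sum] at h4
  have h5 : ∑ q ∈ Icc 1 X, ψ q ≤ Ψ := hψs.sum_le_tsum _ fun n _ => (hψ0 n).le
  -- partial summation
  set A : ℝ := C1 * Y ^ (1 + τ) * (H : ℝ) ^ τ with hA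
  have hA0 : 0 ≤ A := by positivity
  have h6 := t_PS f A τ X hf0 hA0 hτ0 (fun t _ => by
    rcases Nat.eq_zero_or_pos t with h | h
    · subst h
      simp only [Nat.cast_zero]
      rw [Real.zero_rpow (by positivity)]
      simp
    have ht : (0 : ℝ) < t := by exact_mod_cast h
    have h7 := hft H hH Y hY0 t
    refine h7.trans (le_of_eq ?_)
    rw [Real.mul_rpow hY0.le (by positivity), hA, ← Real.rpow_natCast, ← Real.rpow_mul ht.le]
    have : ((2 : ℕ) : ℝ) * (1 + τ) = 2 + 2 * τ := by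
      push_cast
      ring
    rw [this]
    ring)
  have h7 : 2 * A * (X : ℝ) ^ (1 + 2 * τ) ≤
      2 * C1 * (D / 4) ^ (1 + τ) * (c⁻¹ * c⁻¹) * (H : ℝ) ^ ((m : ℝ) - σ) := by
    have h8 : Y ^ (1 + τ) = (D / 4) ^ (1 + τ) * (X : ℝ) ^ (τ * (1 + τ)) * c⁻¹ ^ (1 + τ) := by
      have : Y = D / 4 * (X : ℝ) ^ τ * c⁻¹ := by
        rw [hY]
        field_simp
      rw [this, Real.mul_rpow (by positivity) (by positivity),
        Real.mul_rpow (by positivity) (by positivity), ← Real.rpow_mul (by positivity)]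
    have h9 : c⁻¹ ^ (1 + τ) ≤ c⁻¹ * c⁻¹ := by
      have hc' : 1 ≤ c⁻¹ := (one_le_inv₀ hc).2 hc1
      have h10 : c⁻¹ ^ (1 + τ) ≤ c⁻¹ ^ (2 : ℝ) :=
        Real.rpow_le_rpow_of_exponent_le hc' (by linarith)
      rw [Real.rpow_two, sq] at h10
      exact h10
    have h10 : (X : ℝ) ^ (τ * (1 + τ)) * (X : ℝ) ^ (1 + 2 * τ) ≤ (H : ℝ) ^ (κ * (1 + 4 * τ)) := by
      rw [← Real.rpow_add (by linarith)]
      calc (X : ℝ) ^ (τ * (1 + τ) + (1 + 2 * τ)) ≤ (X : ℝ) ^ (1 + 4 * τ) := by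
            apply Real.rpow_le_rpow_of_exponent_le hX1'
            nlinarith
        _ ≤ ((H : ℝ) ^ κ) ^ (1 + 4 * τ) :=
            Real.rpow_le_rpow (by positivity) hXle (by positivity)
        _ = (H : ℝ) ^ (κ * (1 + 4 * τ)) := (Real.rpow_mul hHp.le _ _).symm
    have h11 : (H : ℝ) ^ (κ * (1 + 4 * τ)) * (H : ℝ) ^ τ ≤ (H : ℝ) ^ ((m : ℝ) - σ) := by
      rw [← Real.rpow_add hHp]
      apply Real.rpow_le_rpow_of_exponent_le hH'
      have : κ * (1 + 4 * τ) + τ = κ + τ * (1 + 4 * κ) := by ring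
      linarith
    have h12 : (0 : ℝ) ≤ 2 * C1 * (D / 4) ^ (1 + τ) := by positivity
    calc 2 * A * (X : ℝ) ^ (1 + 2 * τ) = 2 * C1 * (D / 4) ^ (1 + τ) * c⁻¹ ^ (1 + τ) *
          (((X : ℝ) ^ (τ * (1 + τ)) * (X : ℝ) ^ (1 + 2 * τ)) * (H : ℝ) ^ τ) := by
          rw [hA, h8]
          ring
      _ ≤ 2 * C1 * (D / 4) ^ (1 + τ) * (c⁻¹ * c⁻¹) *
          (((H : ℝ) ^ (κ * (1 + 4 * τ))) * (H : ℝ) ^ τ) := by
          refine mul_le_mul (mul_le_mul_of_nonneg_left h9 h12)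
            (mul_le_mul_of_nonneg_right h10 (by positivity)) (by positivity) (by positivity)
      _ ≤ 2 * C1 * (D / 4) ^ (1 + τ) * (c⁻¹ * c⁻¹) * (H : ℝ) ^ ((m : ℝ) - σ) :=
          mul_le_mul_of_nonneg_left h11 (by positivity)
  have h8 : ∑ q ∈ Icc 1 X, f q / q ≤
      2 * C1 * (D / 4) ^ (1 + τ) * (c⁻¹ * c⁻¹) * (H : ℝ) ^ ((m : ℝ) - σ) := h6.trans h7
  have h9 : 20 * c * (4 * (H : ℝ)) ^ m * ∑ q ∈ Icc 1 X, ψ q ≤
      20 * 4 ^ m * Ψ * (c * (H : ℝ) ^ m) := by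
    calc _ ≤ 20 * c * (4 * (H : ℝ)) ^ m * Ψ := mul_le_mul_of_nonneg_left h5 (by positivity)
      _ = _ := by
          rw [mul_pow]
          ring
  have h10 : 40 * c * Ψ * ∑ q ∈ Icc 1 X, f q / q ≤
      80 * Ψ * C1 * (D / 4) ^ (1 + τ) * (c⁻¹ * (H : ℝ) ^ ((m : ℝ) - σ)) := by
    calc _ ≤ 40 * c * Ψ * (2 * C1 * (D / 4) ^ (1 + τ) * (c⁻¹ * c⁻¹) * (H : ℝ) ^ ((m : ℝ) - σ)) :=
          mul_le_mul_of_nonneg_left h8 (by positivity)
      _ = 80 * Ψ * C1 * (D / 4) ^ (1 + τ) * ((c * c⁻¹) * c⁻¹ * (H : ℝ) ^ ((m : ℝ) - σ)) := by ring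
      _ = _ := by
          rw [mul_inv_cancel₀ hc.ne', one_mul]
  have h11 : (0 : ℝ) ≤ c * (H : ℝ) ^ m := by positivity
  have h12 : (0 : ℝ) ≤ c⁻¹ * (H : ℝ) ^ ((m : ℝ) - σ) := by positivity
  have h13 : 20 * 4 ^ m * Ψ * (c * (H : ℝ) ^ m) ≤ C * (c * (H : ℝ) ^ m) := by
    refine mul_le_mul_of_nonneg_right ?_ h11
    rw [hC]
    have : 0 ≤ 80 * Ψ * C1 * (D / 4) ^ (1 + τ) := by positivity
    linarith
  have h14 : 80 * Ψ * C1 * (D / 4) ^ (1 + τ) * (c⁻¹ * (H : ℝ) ^ ((m : ℝ) - σ)) ≤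
      C * (c⁻¹ * (H : ℝ) ^ ((m : ℝ) - σ)) := by
    refine mul_le_mul_of_nonneg_right ?_ h12
    rw [hC]
    have : (0 : ℝ) ≤ 20 * 4 ^ m * Ψ := by positivity
    linarith
  calc ((Bad ξ ψ₀ H ((H : ℝ) ^ κ) c β s).ncard : ℝ) ≤
        20 * c * (4 * (H : ℝ)) ^ m * ∑ q ∈ Icc 1 X, ψ q + 40 * c * Ψ * ∑ q ∈ Icc 1 X, f q / q :=
        h1.trans (h2.trans h4)
    _ ≤ C * (c * (H : ℝ) ^ m) + C * (c⁻¹ * (H : ℝ) ^ ((m : ℝ) - σ)) := by linarith
    _ = C * (c * (H : ℝ) ^ m + c⁻¹ * (H : ℝ) ^ ((m : ℝ) - σ)) := by ring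

end Pool.Agent.U890.LC
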