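import Pool.Agent.U890.LC.A
import Pool.Agent.H639R3.K.Khin

/-!
# Rational approximations to the elements of cosets: divergence
-/

set_option autoImplicit false

open Finset Filter Topology

namespace Pool.Agent.U890.LC

open Pool.Agent.N965.LN MeasureTheory

/-- few elements in short arcs, any position -/
theorem arc {m : ℕ} (ξ : Fin m → ℝ) (hK : Ksum ξ) (r : ℝ) (hr : 0 < r) :
    ∃ C : ℝ, 0 < C ∧ ∀ H : ℕ, 1 ≤ H → ∀ (γ : ℝ) (s : Fin m → ℤ),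
      (((cube s H).filter fun a => dn (γ + ∑ i, (a i : ℝ) * ξ i) ≤ r / 2).card : ℝ) ≤
        10 * r * (4 * (H : ℝ)) ^ m + C * (H : ℝ) ^ (1 / 2 : ℝ) := by
  obtain ⟨C, hC, h⟩ := hK (1 / 2) (by norm_num)
  refine ⟨20 * r * (C * (⌊1 / (2 * r)⌋₊ + 1)), by positivity, fun H hH γ s => ?_⟩
  have h1 := card_near hH ξ γ r hr s
  have h2 := h H hH ⌊1 / (2 * r)⌋₊
  have h3 : 20 * r * ∑ v ∈ Icc 1 ⌊1 / (2 * r)⌋₊, ∏ i, KK H ((v : ℝ) * ξ i) ≤
      20 * r * (C * (⌊1 / (2 * r)⌋₊ + 1)) * (H : ℝ) ^ (1 / 2 : ℝ) := by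
    calc _ ≤ 20 * r * (C * ⌊1 / (2 * r)⌋₊ * (H : ℝ) ^ (1 / 2 : ℝ)) :=
          mul_le_mul_of_nonneg_left h2 (by positivity)
      _ ≤ 20 * r * (C * (⌊1 / (2 * r)⌋₊ + 1) * (H : ℝ) ^ (1 / 2 : ℝ)) := by
          refine mul_le_mul_of_nonneg_left ?_ (by positivity)
          refine mul_le_mul_of_nonneg_right ?_ (by positivity)
          exact mul_le_mul_of_nonneg_left (by linarith) hC.le
      _ = _ := by ring
  linarith

/-- the numbers of the unit interval without good approximations with denominators in `[Q₀, Q]` -/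
def KS (ψ : ℕ → ℝ) (Q₀ Q : ℕ) : Set ℝ :=
  {y | y ∈ Set.Icc (0 : ℝ) 1 ∧ ∀ q, Q₀ ≤ q → q ≤ Q → ψ q ≤ dn ((q : ℝ) * y)}

theorem dn_eq_infDist (x : ℝ) : dn x = ‖(x : UnitAddCircle)‖ := (UnitAddCircle.norm_eq).symm

theorem dn_cont : Continuous dn := by
  have h : dn = fun x : ℝ => ‖(x : UnitAddCircle)‖ := funext dn_eq_infDist
  rw [h]
  exact continuous_norm.comp (AddCircle.continuous_mk' 1)

theorem ks_closed (ψ : ℕ → ℝ) (Q₀ Q : ℕ) : IsClosed (KS ψ Q₀ Q) := by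
  have h : KS ψ Q₀ Q = Set.Icc (0 : ℝ) 1 ∩ ⋂ q ∈ Set.Icc Q₀ Q, {y : ℝ | ψ q ≤ dn ((q : ℝ) * y)} := by
    ext y
    simp only [KS, Set.mem_ofPred_eq, Set.mem_inter_iff, Set.mem_iInter, Set.mem_Icc, and_imp]
  rw [h]
  refine isClosed_Icc.inter (isClosed_biInter fun q _ => ?_)
  exact isClosed_le continuous_const (dn_cont.comp (continuous_const.mul continuous_id))

theorem khin (ψ : ℕ → ℝ) (h0 : ∀ q, 0 ≤ ψ q) (ha : Antitone ψ) (hd : ¬ Summable ψ) :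
    ∀ᵐ y : ℝ, ∃ᶠ q : ℕ in atTop, dn ((q : ℝ) * y) < ψ q := by
  have h := Pool.Agent.H639R3.K.ae_good (d := 1) (J := Empty) one_pos (fun j => j.elim)
    (fun j => j.elim) h0 ha (by simpa using hd)
  have hmp := (volume_preserving_funUnique (Fin 1) ℝ).symm
  have h2 := hmp.quasiMeasurePreserving.ae h
  filter_upwards [h2] with y hy
  refine hy.mono fun q hq => ?_
  have h3 : |(q : ℝ) * y - round ((q : ℝ) * y)| < ψ q := hq.1 0
  exact h3

theorem ks_small (ψ : ℕ → ℝ) (h0 : ∀ q, 0 ≤ ψ q) (ha : Antitone ψ) (hd : ¬ Summable ψ)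
    (Q₀ : ℕ) (ε : ENNReal) (hε : 0 < ε) : ∃ Q, Q₀ ≤ Q ∧ volume (KS ψ Q₀ Q) < ε := by
  have h1 : volume (⋂ Q, KS ψ Q₀ Q) = 0 := by
    have h2 := khin ψ h0 ha hd
    rw [ae_iff] at h2
    refine measure_mono_null ?_ h2
    intro y hy
    simp only [Set.mem_ofPred_eq]
    intro hfr
    obtain ⟨q, hq1, hq2⟩ := (hfr.and_eventually (eventually_ge_atTop Q₀)).exists
    have := (Set.mem_iInter.1 hy q).2 q hq2 le_rfl
    linarith
  have hanti : Antitone fun Q => KS ψ Q₀ Q := by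
    intro a b hab y hy
    exact ⟨hy.1, fun q h1 h2 => hy.2 q h1 (h2.trans hab)⟩
  have h2 := tendsto_measure_iInter_atTop (μ := volume) (s := fun Q => KS ψ Q₀ Q)
    (fun Q => (ks_closed ψ Q₀ Q).measurableSet.nullMeasurableSet) hanti
    ⟨0, ((measure_mono (fun y hy => hy.1)).trans_lt (by
      rw [Real.volume_Icc]
      simp)).ne⟩
  rw [h1] at h2
  have h3 := (h2.eventually (gt_mem_nhds hε)).and (eventually_ge_atTop Q₀)
  obtain ⟨Q, h4, h5⟩ := h3.exists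
  exact ⟨Q, h5, h4⟩

end Pool.Agent.U890.LC
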